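import Pool.Agent.H54.WB.TargetsC

/-!
# MW1: from expressions to trees of intervals
-/

set_option autoImplicit false

namespace Pool.Agent.H7.WB

open Pool.Agent.H54.WB Pool.Agent.H8.VR

private theorem key {A : Type} {k : ℕ} {E : A → A → Prop} {X : Set A} {c : A → Fin k}
    (h : NLC k 1 (fun _ => E) X c) : ∃ (N : ℕ) (p : ℕ → A) (T : ℕ → ℕ → Prop), 0 < N ∧
    (∀ i < N, ∀ j < N, p i = p j → i = j) ∧ (∀ x, x ∈ X ↔ ∃ i < N, p i = x) ∧ IntTree N T ∧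
    ∀ a b, T a b → ∃ d : A → Fin k, ∀ i j, a ≤ i → i ≤ b → a ≤ j → j ≤ b → d (p i) = d (p j) →
      c (p i) = c (p j) ∧ ∀ m < N, (m < a ∨ b < m) → (E (p i) (p m) ↔ E (p j) (p m)) := by
  induction h with
  | pt a c =>
    refine ⟨1, fun _ => a, fun i j => i = 0 ∧ j = 0, one_pos, ?_, ?_, ?_, ?_⟩
    · intro i hi j hj _
      omega
    · intro x
      constructor
      · intro hx
        exact ⟨0, one_pos, (Set.mem_singleton_iff.1 hx).symm⟩
      · rintro ⟨_, _, rfl⟩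
        exact rfl
    · refine ⟨⟨rfl, rfl⟩, ?_, ?_⟩
      · rintro i j ⟨rfl, rfl⟩
        exact ⟨le_rfl, one_pos⟩
      · rintro i j ⟨rfl, rfl⟩ h
        exact absurd h (lt_irrefl _)
    · rintro i j ⟨rfl, rfl⟩
      exact ⟨c, fun i j _ _ _ _ _ => ⟨rfl, fun m _ _ => Iff.rfl⟩⟩
  | op X Y c c₁ c₂ h₁ h₂ hd l r f g hR hX hY ih₁ ih₂ =>
    obtain ⟨N₁, p₁, T₁, hN₁, hi₁, hx₁, ht₁, hp₁⟩ := ih₁
    obtain ⟨N₂, p₂, T₂, hN₂, hi₂, hx₂, ht₂, hp₂⟩ := ih₂
    have e1 : ∀ i < N₁, (if i < N₁ then p₁ i else p₂ (i - N₁)) = p₁ i := fun i hi => if_pos hi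
    have e2 : ∀ i, N₁ ≤ i → (if i < N₁ then p₁ i else p₂ (i - N₁)) = p₂ (i - N₁) :=
      fun i hi => if_neg (not_lt.2 hi)
    have m1 : ∀ i < N₁, p₁ i ∈ X := fun i hi => (hx₁ _).2 ⟨i, hi, rfl⟩
    have m2 : ∀ i < N₂, p₂ i ∈ Y := fun i hi => (hx₂ _).2 ⟨i, hi, rfl⟩
    refine ⟨N₁ + N₂, fun i => if i < N₁ then p₁ i else p₂ (i - N₁),
      fun a b => T₁ a b ∨ (N₁ ≤ a ∧ N₁ ≤ b ∧ T₂ (a - N₁) (b - N₁)) ∨ (a = 0 ∧ b = N₁ + N₂ - 1),
      by omega, ?_, ?_, ?_, ?_⟩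
    · intro i hi j hj hij
      simp only at hij
      by_cases h1 : i < N₁ <;> by_cases h2 : j < N₁
      · rw [if_pos h1, if_pos h2] at hij
        exact hi₁ i h1 j h2 hij
      · rw [if_pos h1, if_neg h2] at hij
        exact absurd ((hij ▸ m2 (j - N₁) (by omega) : p₁ i ∈ Y))
          (Set.disjoint_left.1 hd (m1 i h1))
      · rw [if_neg h1, if_pos h2] at hij
        exact absurd ((hij ▸ m1 j h2 : p₂ (i - N₁) ∈ X))
          (Set.disjoint_right.1 hd (m2 (i - N₁) (by omega)))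
      · rw [if_neg h1, if_neg h2] at hij
        have h3 := hi₂ (i - N₁) (by omega) (j - N₁) (by omega) hij
        omega
    · intro x
      constructor
      · rintro (hx | hx)
        · obtain ⟨i, hi, rfl⟩ := (hx₁ x).1 hx
          exact ⟨i, by omega, e1 i hi⟩
        · obtain ⟨i, hi, rfl⟩ := (hx₂ x).1 hx
          refine ⟨N₁ + i, by omega, (e2 (N₁ + i) (by omega)).trans ?_⟩
          rw [Nat.add_sub_cancel_left]
      · rintro ⟨i, hi, rfl⟩
        by_cases h1 : i < N₁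
        · simp only [if_pos h1]
          exact Or.inl (m1 i h1)
        · simp only [if_neg h1]
          exact Or.inr (m2 (i - N₁) (by omega))
    · refine ⟨Or.inr (Or.inr ⟨rfl, rfl⟩), ?_, ?_⟩
      · rintro a b (h | ⟨h1, h2, h⟩ | ⟨rfl, rfl⟩)
        · have h3 := ht₁.le a b h
          omega
        · have h3 := ht₂.le _ _ h
          omega
        · omega
      · rintro a b (h | ⟨h1, h2, h⟩ | ⟨rfl, rfl⟩) hab
        · obtain ⟨m, h3, h4, h5, h6⟩ := ht₁.split a b h hab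
          exact ⟨m, h3, h4, Or.inl h5, Or.inl h6⟩
        · obtain ⟨m, h3, h4, h5, h6⟩ := ht₂.split _ _ h (by omega)
          refine ⟨N₁ + m, by omega, by omega, Or.inr (Or.inl ⟨h1, by omega, ?_⟩),
            Or.inr (Or.inl ⟨by omega, h2, ?_⟩)⟩
          · rw [Nat.add_sub_cancel_left]
            exact h5
          · rw [show N₁ + m + 1 - N₁ = m + 1 by omega]
            exact h6
        · refine ⟨N₁ - 1, Nat.zero_le _, by omega, Or.inl ht₁.top,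
            Or.inr (Or.inl ⟨by omega, by omega, ?_⟩)⟩
          rw [show N₁ - 1 + 1 - N₁ = 0 by omega, show N₁ + N₂ - 1 - N₁ = N₂ - 1 by omega]
          exact ht₂.top
    · rintro a b (h | ⟨h1, h2, h⟩ | ⟨rfl, rfl⟩)
      · obtain ⟨d, hd'⟩ := hp₁ a b h
        have hb := (ht₁.le a b h).2
        refine ⟨d, fun i j hi1 hi2 hj1 hj2 hij => ?_⟩
        simp only [if_pos (show i < N₁ by omega), if_pos (show j < N₁ by omega)] at hij ⊢
        obtain ⟨h3, h4⟩ := hd' i j hi1 hi2 hj1 hj2 hij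
        refine ⟨?_, fun m hm hmo => ?_⟩
        · rw [hX _ (m1 i (by omega)), hX _ (m1 j (by omega)), h3]
        · by_cases h5 : m < N₁
          · rw [if_pos h5]
            exact h4 m h5 hmo
          · rw [if_neg h5]
            have h6 := (hR _ (m1 i (by omega)) _ (m2 (m - N₁) (by omega)) 0 one_pos).1
            have h7 := (hR _ (m1 j (by omega)) _ (m2 (m - N₁) (by omega)) 0 one_pos).1
            rw [h6, h7, h3]
      · obtain ⟨d, hd'⟩ := hp₂ _ _ h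
        have hb := (ht₂.le _ _ h).2
        refine ⟨d, fun i j hi1 hi2 hj1 hj2 hij => ?_⟩
        simp only [if_neg (show ¬ i < N₁ by omega), if_neg (show ¬ j < N₁ by omega)] at hij ⊢
        obtain ⟨h3, h4⟩ := hd' (i - N₁) (j - N₁) (by omega) (by omega) (by omega) (by omega) hij
        refine ⟨?_, fun m hm hmo => ?_⟩
        · rw [hY _ (m2 (i - N₁) (by omega)), hY _ (m2 (j - N₁) (by omega)), h3]
        · by_cases h5 : m < N₁
          · rw [if_pos h5]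
            have h6 := (hR _ (m1 m h5) _ (m2 (i - N₁) (by omega)) 0 one_pos).2
            have h7 := (hR _ (m1 m h5) _ (m2 (j - N₁) (by omega)) 0 one_pos).2
            rw [h6, h7, h3]
          · rw [if_neg h5]
            exact h4 (m - N₁) (by omega) (by omega)
      · exact ⟨c, fun i j _ _ _ _ hij => ⟨hij, fun m hm hmo => by omega⟩⟩

/-- numbers of classes -/
private theorem classes {k n a b : ℕ} (hb : b < n) {r : ℕ → ℕ → Prop} (hr : Equivalence r)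
    (d : ℕ → Fin k) (hd : ∀ x y, a ≤ x → x ≤ b → a ≤ y → y ≤ b → d x = d y → r x y) :
    ∃ ρ : ℕ → ℕ, (∀ x, a ≤ x → x ≤ b → ρ x < k ∧ ρ x < n) ∧
      ∀ x y, a ≤ x → x ≤ b → a ≤ y → y ≤ b → (ρ x = ρ y ↔ r x y) := by
  have hmem : ∀ x, a ≤ x → x ≤ b → sInf {y | a ≤ y ∧ y ≤ b ∧ r x y} ∈
      {y | a ≤ y ∧ y ≤ b ∧ r x y} := fun x h1 h2 => Nat.sInf_mem ⟨x, h1, h2, hr.refl x⟩
  have heq : ∀ x y, r x y → sInf {z | a ≤ z ∧ z ≤ b ∧ r x z} =
      sInf {z | a ≤ z ∧ z ≤ b ∧ r y z} := by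
    intro x y hxy
    congr 1
    ext z
    exact ⟨fun h => ⟨h.1, h.2.1, hr.trans (hr.symm hxy) h.2.2⟩,
      fun h => ⟨h.1, h.2.1, hr.trans hxy h.2.2⟩⟩
  by_cases hkn : k ≤ n
  · refine ⟨fun x => (d (sInf {y | a ≤ y ∧ y ≤ b ∧ r x y})).1, fun x _ _ =>
      ⟨(d _).2, (d _).2.trans_le hkn⟩, fun x y hx1 hx2 hy1 hy2 => ⟨fun h => ?_, fun h => ?_⟩⟩
    · obtain ⟨h1, h2, h3⟩ := hmem x hx1 hx2
      obtain ⟨h4, h5, h6⟩ := hmem y hy1 hy2
      have h7 := hd _ _ h1 h2 h4 h5 (Fin.ext h)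
      exact hr.trans h3 (hr.trans h7 (hr.symm h6))
    · simp only [heq x y h]
  · refine ⟨fun x => sInf {y | a ≤ y ∧ y ≤ b ∧ r x y}, fun x h1 h2 => ?_,
      fun x y hx1 hx2 hy1 hy2 => ⟨fun h => ?_, fun h => heq x y h⟩⟩
    · obtain ⟨-, h3, -⟩ := hmem x h1 h2
      exact ⟨lt_of_le_of_lt h3 (by omega), lt_of_le_of_lt h3 hb⟩
    · obtain ⟨-, -, h3⟩ := hmem x hx1 hx2
      obtain ⟨-, -, h6⟩ := hmem y hy1 hy2
      simp only at h
      rw [h] at h3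
      exact hr.trans h3 (hr.symm h6)

theorem pf_MW1 : T_MW1 := by
  intro k n G hn h
  obtain ⟨c, hc⟩ := h
  obtain ⟨N, p, T, hN, hi, hx, ht, hp⟩ := key hc
  have hbij : Function.Bijective (fun i : Fin N => p i.1) := by
    constructor
    · intro i j hij
      exact Fin.ext (hi i.1 i.2 j.1 j.2 hij)
    · intro x
      obtain ⟨i, hi', h⟩ := (hx x).1 (Set.mem_univ x)
      exact ⟨⟨i, hi'⟩, h⟩
  have hNn : N = n := by
    have h1 := Fintype.card_of_bijective hbij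
    rwa [Fintype.card_fin, Fintype.card_fin] at h1
  subst hNn
  refine ⟨Equiv.ofBijective _ hbij, T, ht, ?_⟩
  intro a b hab
  obtain ⟨d, hd⟩ := hp a b hab
  obtain ⟨hab1, hab2⟩ := ht.le a b hab
  have hE : ∀ x y, (∃ (hx : x < N) (hy : y < N), G.Adj (Equiv.ofBijective _ hbij ⟨x, hx⟩)
      (Equiv.ofBijective _ hbij ⟨y, hy⟩)) ↔ x < N ∧ y < N ∧ G.Adj (p x) (p y) :=
    fun x y => ⟨fun ⟨h1, h2, h3⟩ => ⟨h1, h2, h3⟩, fun ⟨h1, h2, h3⟩ => ⟨h1, h2, h3⟩⟩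
  refine classes hab2 (r := fun x y => ∀ z < N, (z < a ∨ b < z) →
    ((∃ (hx : x < N) (hy : z < N), G.Adj (Equiv.ofBijective _ hbij ⟨x, hx⟩)
      (Equiv.ofBijective _ hbij ⟨z, hy⟩)) ↔
    (∃ (hx : y < N) (hy : z < N), G.Adj (Equiv.ofBijective _ hbij ⟨y, hx⟩)
      (Equiv.ofBijective _ hbij ⟨z, hy⟩)))) ?_ (fun x => d (p x)) ?_
  · exact ⟨fun _ _ _ _ => Iff.rfl, fun h z hz hz' => (h z hz hz').symm,
      fun h h' z hz hz' => (h z hz hz').trans (h' z hz hz')⟩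
  · intro x y hx1 hx2 hy1 hy2 hxy z hz hz'
    rw [hE, hE]
    have h1 := (hd x y hx1 hx2 hy1 hy2 hxy).2 z hz hz'
    exact ⟨fun h => ⟨by omega, hz, h1.1 h.2.2⟩, fun h => ⟨by omega, hz, h1.2 h.2.2⟩⟩

end Pool.Agent.H7.WB
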