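import Pool.Agent.H54.WB.TargetsA

/-!
# TEX: models exist
-/

set_option autoImplicit false

namespace Pool.Agent.H7.WB

open Pool.Agent.H54.WB
open Pool.Agent.H8.PL (GridF)

private theorem Tw_mono (l : ℕ) {d d' : ℕ} (h : d ≤ d') : Tw l d ≤ Tw l d' := by
  induction l with
  | zero => exact h
  | succ l ih => exact Nat.pow_le_pow_right (by norm_num) ih

/-! ### the semantics of numbers -/

/-- numbers whose values are given by `val` -/
private structure AB {V : Type} (L d : ℕ) (E : V → V → Prop) (ro : V → ℕ) (bt : V → Bool)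
    (val : V → ℕ) : Prop where
  clt : ∀ x y, ro x = 0 → ro y = 0 →
    (CLt E (fun v => ro v = 0) (fun v => ro v = L + 2) x y ↔ val x < val y)
  cinj : ∀ x y, ro x = 0 → ro y = 0 → val x = val y → x = y
  cex : ∀ j < d, ∃ x, ro x = 0 ∧ val x = j
  clt' : ∀ x, ro x = 0 → val x < d
  plt : ∀ l < L, ∀ x, ro x = l + 1 → ∀ p, Pos E ro l x p → val p < Tw l d
  pex : ∀ l < L, ∀ x, ro x = l + 1 → ∀ j < Tw l d, ∃ p, Pos E ro l x p ∧ val p = j
  pon : ∀ l < L, ∀ x, ro x = l + 1 → ∀ p, Pos E ro l x p →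
    (On E bt l x p ↔ (val x).testBit (val p) = true)
  lt : ∀ l < L, ∀ x, ro x = l + 1 → val x < Tw (l + 1) d

private theorem pos_ro {V : Type} {E : V → V → Prop} {ro : V → ℕ} {l : ℕ} {x p : V}
    (h : Pos E ro l x p) : ro p = l := by
  cases l with
  | zero => exact h
  | succ l => exact h.2

/-- the semantics -/
private structure Sem {V : Type} (L d : ℕ) (E : V → V → Prop) (ro : V → ℕ) (bt : V → Bool)
    (val : V → ℕ) (l : ℕ) : Prop where
  sm : ∀ x y, ro x = l → ro y = l → (Same E ro bt l x y ↔ val x = val y)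
  lo : ∀ x y, ro x = l → ro y = l →
    (Lt E ro bt (fun v => ro v = L + 2) l x y ↔ val x < val y)
  hi : ∀ x, ro x = l → (Hi E ro bt (fun v => ro v = L + 2) l x ↔ Tw l (d - 1) ≤ val x)

private theorem sem_zero {V : Type} {L d : ℕ} {E : V → V → Prop} {ro : V → ℕ} {bt : V → Bool}
    {val : V → ℕ} (hd : 0 < d) (h : AB L d E ro bt val) : Sem L d E ro bt val 0 where
  sm := fun x y hx hy => ⟨fun e => congrArg val e, fun e => h.cinj x y hx hy e⟩
  lo := fun x y hx hy => h.clt x y hx hy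
  hi := by
    intro x hx
    show (ro x = 0 ∧ ∀ v, ¬ CLt E (fun v => ro v = 0) (fun v => ro v = L + 2) x v) ↔
      d - 1 ≤ val x
    constructor
    · rintro ⟨-, h1⟩
      by_contra hn
      obtain ⟨v, hv, hv'⟩ := h.cex (d - 1) (by omega)
      exact h1 v ((h.clt x v hx hv).2 (by omega))
    · intro h1
      refine ⟨hx, fun v hv => ?_⟩
      have h2 := (h.clt x v hx hv.2.1).1 hv
      have h3 := h.clt' v hv.2.1
      omega

section step

variable {V : Type} {L d : ℕ} {E : V → V → Prop} {ro : V → ℕ} {bt : V → Bool} {val : V → ℕ}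

private theorem same_succ (h : AB L d E ro bt val) {l : ℕ} (hl : l < L)
    (ih : Sem L d E ro bt val l) {x y : V} (hx : ro x = l + 1) (hy : ro y = l + 1) :
    Same E ro bt (l + 1) x y ↔ ∀ i < Tw l d, ((val x).testBit i = true ↔ (val y).testBit i = true) := by
  constructor
  · intro hs i hi
    obtain ⟨p, hp, rfl⟩ := h.pex l hl x hx i hi
    obtain ⟨q, hq, hqp⟩ := h.pex l hl y hy (val p) hi
    rw [← h.pon l hl x hx p hp, ← hqp, ← h.pon l hl y hy q hq]
    exact hs p q hp hq ((ih.sm p q (pos_ro hp) (pos_ro hq)).2 hqp.symm)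
  · intro hs p q hp hq hpq
    have h1 := (ih.sm p q (pos_ro hp) (pos_ro hq)).1 hpq
    rw [h.pon l hl x hx p hp, h.pon l hl y hy q hq, ← h1]
    exact hs (val p) (h.plt l hl x hx p hp)

private theorem lt_succ (h : AB L d E ro bt val) {l : ℕ} (hl : l < L)
    (ih : Sem L d E ro bt val l) {x y : V} (hx : ro x = l + 1) (hy : ro y = l + 1) :
    Lt E ro bt (fun v => ro v = L + 2) (l + 1) x y ↔ ∃ i < Tw l d,
      ¬ ((val x).testBit i = true) ∧ (val y).testBit i = true ∧ ∀ j < Tw l d, i < j →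
        ((val x).testBit j = true ↔ (val y).testBit j = true) := by
  constructor
  · rintro ⟨p, q, hp, hq, hpq, h1, h2, h3⟩
    have hv := (ih.sm p q (pos_ro hp) (pos_ro hq)).1 hpq
    refine ⟨val p, h.plt l hl x hx p hp, ?_, ?_, ?_⟩
    · rwa [← h.pon l hl x hx p hp]
    · rwa [hv, ← h.pon l hl y hy q hq]
    · intro j hj hij
      obtain ⟨p', hp', rfl⟩ := h.pex l hl x hx j hj
      obtain ⟨q', hq', hqp⟩ := h.pex l hl y hy (val p') hj
      rw [← h.pon l hl x hx p' hp', ← hqp, ← h.pon l hl y hy q' hq']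
      exact h3 p' q' hp' hq' ((ih.sm p' q' (pos_ro hp') (pos_ro hq')).2 hqp.symm)
        ((ih.lo p p' (pos_ro hp) (pos_ro hp')).2 hij)
  · rintro ⟨i, hi, h1, h2, h3⟩
    obtain ⟨p, hp, rfl⟩ := h.pex l hl x hx i hi
    obtain ⟨q, hq, hqp⟩ := h.pex l hl y hy (val p) hi
    refine ⟨p, q, hp, hq, (ih.sm p q (pos_ro hp) (pos_ro hq)).2 hqp.symm, ?_, ?_, ?_⟩
    · rwa [h.pon l hl x hx p hp]
    · rwa [h.pon l hl y hy q hq, hqp]
    · intro p' q' hp' hq' hs hlt
      rw [h.pon l hl x hx p' hp', h.pon l hl y hy q' hq',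
        ← (ih.sm p' q' (pos_ro hp') (pos_ro hq')).1 hs]
      exact h3 (val p') (h.plt l hl x hx p' hp') ((ih.lo p p' (pos_ro hp) (pos_ro hp')).1 hlt)

private theorem suc_iff (h : AB L d E ro bt val) {l : ℕ} (hl : l < L)
    (ih : Sem L d E ro bt val l) {x y : V} (hx : ro x = l + 1) (hy : ro y = l + 1) :
    Suc E ro bt (fun v => ro v = L + 2) l x y ↔ ∃ i < Tw l d,
      ¬ ((val x).testBit i = true) ∧ (val y).testBit i = true ∧ (∀ j < Tw l d, i < j →
        ((val x).testBit j = true ↔ (val y).testBit j = true)) ∧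
        ∀ j < i, (val x).testBit j = true ∧ ¬ ((val y).testBit j = true) := by
  constructor
  · rintro ⟨p, q, hp, hq, hpq, h1, h2, h3⟩
    have hv := (ih.sm p q (pos_ro hp) (pos_ro hq)).1 hpq
    have hpl := h.plt l hl x hx p hp
    refine ⟨val p, hpl, ?_, ?_, ?_, ?_⟩
    · rwa [← h.pon l hl x hx p hp]
    · rwa [hv, ← h.pon l hl y hy q hq]
    · intro j hj hij
      obtain ⟨p', hp', rfl⟩ := h.pex l hl x hx j hj
      obtain ⟨q', hq', hqp⟩ := h.pex l hl y hy (val p') hj
      rw [← h.pon l hl x hx p' hp', ← hqp, ← h.pon l hl y hy q' hq']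
      exact (h3 p' q' hp' hq' ((ih.sm p' q' (pos_ro hp') (pos_ro hq')).2 hqp.symm)).1
        ((ih.lo p p' (pos_ro hp) (pos_ro hp')).2 hij)
    · intro j hij
      have hj : j < Tw l d := hij.trans hpl
      obtain ⟨p', hp', rfl⟩ := h.pex l hl x hx j hj
      obtain ⟨q', hq', hqp⟩ := h.pex l hl y hy (val p') hj
      rw [← h.pon l hl x hx p' hp', ← hqp, ← h.pon l hl y hy q' hq']
      exact (h3 p' q' hp' hq' ((ih.sm p' q' (pos_ro hp') (pos_ro hq')).2 hqp.symm)).2
        ((ih.lo p' p (pos_ro hp') (pos_ro hp)).2 hij)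
  · rintro ⟨i, hi, h1, h2, h3, h4⟩
    obtain ⟨p, hp, rfl⟩ := h.pex l hl x hx i hi
    obtain ⟨q, hq, hqp⟩ := h.pex l hl y hy (val p) hi
    refine ⟨p, q, hp, hq, (ih.sm p q (pos_ro hp) (pos_ro hq)).2 hqp.symm, ?_, ?_, ?_⟩
    · rwa [h.pon l hl x hx p hp]
    · rwa [h.pon l hl y hy q hq, hqp]
    · intro p' q' hp' hq' hs
      rw [h.pon l hl x hx p' hp', h.pon l hl y hy q' hq',
        ← (ih.sm p' q' (pos_ro hp') (pos_ro hq')).1 hs]
      exact ⟨fun hlt => h3 (val p') (h.plt l hl x hx p' hp')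
        ((ih.lo p p' (pos_ro hp) (pos_ro hp')).1 hlt),
        fun hlt => h4 (val p') ((ih.lo p' p (pos_ro hp') (pos_ro hp)).1 hlt)⟩

private theorem zer_iff (h : AB L d E ro bt val) {l : ℕ} (hl : l < L) {x : V} (hx : ro x = l + 1) :
    Zer E ro bt l x ↔ ∀ i < Tw l d, ¬ ((val x).testBit i = true) := by
  constructor
  · intro hz i hi
    obtain ⟨p, hp, rfl⟩ := h.pex l hl x hx i hi
    rw [← h.pon l hl x hx p hp]
    exact hz p hp
  · intro hz p hp
    rw [h.pon l hl x hx p hp]
    exact hz (val p) (h.plt l hl x hx p hp)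

private theorem max_iff (h : AB L d E ro bt val) {l : ℕ} (hl : l < L) {x : V} (hx : ro x = l + 1) :
    Max E ro bt l x ↔ ∀ i < Tw l d, (val x).testBit i = true := by
  constructor
  · intro hz i hi
    obtain ⟨p, hp, rfl⟩ := h.pex l hl x hx i hi
    rw [← h.pon l hl x hx p hp]
    exact hz p hp
  · intro hz p hp
    rw [h.pon l hl x hx p hp]
    exact hz (val p) (h.plt l hl x hx p hp)

private theorem hi_succ (h : AB L d E ro bt val) {l : ℕ} (hl : l < L)
    (ih : Sem L d E ro bt val l) {x : V} (hx : ro x = l + 1) :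
    Hi E ro bt (fun v => ro v = L + 2) (l + 1) x ↔
      ∃ i < Tw l d, (val x).testBit i = true ∧ Tw l (d - 1) ≤ i := by
  constructor
  · rintro ⟨p, hp, h1, h2⟩
    refine ⟨val p, h.plt l hl x hx p hp, ?_, (ih.hi p (pos_ro hp)).1 h2⟩
    rwa [← h.pon l hl x hx p hp]
  · rintro ⟨i, hi, h1, h2⟩
    obtain ⟨p, hp, rfl⟩ := h.pex l hl x hx i hi
    exact ⟨p, hp, by rwa [h.pon l hl x hx p hp], (ih.hi p (pos_ro hp)).2 h2⟩

private theorem bvv (hBIT : T_BIT) {n a : ℕ} (h : a < 2 ^ n) :
    bv n (fun i => a.testBit i = true) = a := (hBIT n).2.2.2.2.2.2.2 a h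

private theorem sem_succ (hBIT : T_BIT) (h : AB L d E ro bt val) {l : ℕ} (hl : l < L)
    (ih : Sem L d E ro bt val l) : Sem L d E ro bt val (l + 1) where
  sm := by
    intro x y hx hy
    rw [same_succ h hl ih hx hy, (hBIT (Tw l d)).2.1 (fun i => (val x).testBit i = true)
      (fun i => (val y).testBit i = true), bvv hBIT (h.lt l hl x hx), bvv hBIT (h.lt l hl y hy)]
  lo := by
    intro x y hx hy
    rw [lt_succ h hl ih hx hy, (hBIT (Tw l d)).2.2.1 (fun i => (val x).testBit i = true)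
      (fun i => (val y).testBit i = true), bvv hBIT (h.lt l hl x hx), bvv hBIT (h.lt l hl y hy)]
  hi := by
    intro x hx
    rw [hi_succ h hl ih hx, (hBIT (Tw l d)).2.2.2.2.2.2.1 (fun i => (val x).testBit i = true)
      (Tw l (d - 1)) (Tw_mono l (Nat.sub_le d 1)), bvv hBIT (h.lt l hl x hx)]
    rfl

private theorem sem_all (hBIT : T_BIT) (hd : 0 < d) (h : AB L d E ro bt val) :
    ∀ l ≤ L, Sem L d E ro bt val l := by
  intro l
  induction l with
  | zero => exact fun _ => sem_zero hd h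
  | succ l ih => exact fun hl => sem_succ hBIT h (by omega) (ih (by omega))

private theorem suc_val (hBIT : T_BIT) (hd : 0 < d) (h : AB L d E ro bt val) {l : ℕ} (hl : l < L)
    {x y : V} (hx : ro x = l + 1) (hy : ro y = l + 1) :
    Suc E ro bt (fun v => ro v = L + 2) l x y ↔ val y = val x + 1 := by
  rw [suc_iff h hl (sem_all hBIT hd h l hl.le) hx hy,
    (hBIT (Tw l d)).2.2.2.1 (fun i => (val x).testBit i = true)
      (fun i => (val y).testBit i = true), bvv hBIT (h.lt l hl x hx), bvv hBIT (h.lt l hl y hy)]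

private theorem zer_val (hBIT : T_BIT) (h : AB L d E ro bt val) {l : ℕ} (hl : l < L)
    {x : V} (hx : ro x = l + 1) : Zer E ro bt l x ↔ val x = 0 := by
  rw [zer_iff h hl hx, (hBIT (Tw l d)).2.2.2.2.1 (fun i => (val x).testBit i = true),
    bvv hBIT (h.lt l hl x hx)]

private theorem max_val (hBIT : T_BIT) (h : AB L d E ro bt val) {l : ℕ} (hl : l < L)
    {x : V} (hx : ro x = l + 1) : Max E ro bt l x ↔ val x + 1 = Tw (l + 1) d := by
  rw [max_iff h hl hx, (hBIT (Tw l d)).2.2.2.2.2.1 (fun i => (val x).testBit i = true),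
    bvv hBIT (h.lt l hl x hx)]
  rfl

end step

/-! ### paths in the number trees -/

/-- the entries of a path are in range -/
private def Okw (d L : ℕ) : List ℕ → Prop
  | [] => True
  | j :: w => j < Tw (L - 1 - w.length) d ∧ Okw d L w

private theorem okw_append (d L : ℕ) (j : ℕ) : ∀ w : List ℕ,
    Okw d (L + 1) (w ++ [j]) ↔ j < Tw L d ∧ Okw d L w
  | [] => Iff.rfl
  | i :: w => by
    show (i < Tw (L + 1 - 1 - (w ++ [j]).length) d ∧ Okw d (L + 1) (w ++ [j])) ↔
      j < Tw L d ∧ i < Tw (L - 1 - w.length) d ∧ Okw d L w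
    rw [okw_append d L j w, List.length_append, List.length_singleton,
      show L + 1 - 1 - (w.length + 1) = L - 1 - w.length by omega]
    tauto

/-- the paths -/
private def Sd (d L : ℕ) : Set (List ℕ) := {w | w.length < L ∧ Okw d L w}

private theorem Sd_succ (d L : ℕ) : Sd d (L + 1) = {[]} ∪
    (fun p : ℕ × List ℕ => p.2 ++ [p.1]) '' (Set.Iio (Tw L d) ×ˢ Sd d L) := by
  ext w
  constructor
  · rintro ⟨h1, h2⟩
    rcases List.eq_nil_or_concat w with rfl | ⟨v, j, rfl⟩
    · exact Or.inl rfl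
    · right
      rw [List.concat_eq_append] at h1 h2 ⊢
      rw [okw_append] at h2
      rw [List.length_append, List.length_singleton] at h1
      have h3 : v.length < L := by omega
      exact ⟨(j, v), ⟨h2.1, h3, h2.2⟩, rfl⟩
  · rintro (rfl | ⟨⟨j, v⟩, ⟨h1, h2, h3⟩, rfl⟩)
    · exact ⟨by simp, trivial⟩
    · refine ⟨?_, (okw_append d L j v).2 ⟨h1, h3⟩⟩
      show (v ++ [j]).length < L + 1
      have h4 : v.length < L := h2
      rw [List.length_append, List.length_singleton]
      omega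

private theorem Sd_card (d : ℕ) : ∀ L : ℕ, (Sd d L).Finite ∧ (Sd d L).ncard = sz d L
  | 0 => by
    have h : Sd d 0 = ∅ := by
      ext w
      simp [Sd]
    rw [h]
    exact ⟨Set.finite_empty, Set.ncard_empty _⟩
  | L + 1 => by
    obtain ⟨h1, h2⟩ := Sd_card d L
    have hinj : Function.Injective (fun p : ℕ × List ℕ => p.2 ++ [p.1]) := by
      rintro ⟨j, v⟩ ⟨j', v'⟩ h
      have h3 := List.append_inj' h rfl
      simp only [List.cons.injEq, and_true] at h3
      rw [h3.1, h3.2]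
    have hI : (Set.Iio (Tw L d)).ncard = Tw L d := by
      rw [← Finset.coe_range, Set.ncard_coe_finset, Finset.card_range]
    have hfin : ((fun p : ℕ × List ℕ => p.2 ++ [p.1]) '' (Set.Iio (Tw L d) ×ˢ Sd d L)).Finite :=
      ((Set.finite_Iio _).prod h1).image _
    rw [Sd_succ]
    refine ⟨(Set.finite_singleton _).union hfin, ?_⟩
    rw [Set.ncard_union_eq ?_ (Set.finite_singleton _) hfin, Set.ncard_singleton,
      Set.ncard_image_of_injective _ hinj, Set.ncard_prod, hI, h2]
    · rfl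
    · rw [Set.disjoint_singleton_left]
      rintro ⟨⟨j, v⟩, -, h⟩
      simp at h

/-! ### the graph -/

/-- the vertices -/
private inductive Vx (d K L : ℕ) : Type
  | core (i : Fin d) : Vx d K L
  | chain (i : Fin d) : Vx d K L
  | cell (c : Fin K × Fin K) : Vx d K L
  | node (c : Fin K × Fin K) (s : Bool) (w : List ℕ) (h : w.length < L ∧ Okw d L w) : Vx d K L

private def vxEquiv (d K L : ℕ) : Vx d K L ≃
    (Fin d ⊕ Fin d) ⊕ ((Fin K × Fin K) ⊕ ((Fin K × Fin K) × Bool × Sd d L)) where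
  toFun
    | .core i => .inl (.inl i)
    | .chain i => .inl (.inr i)
    | .cell c => .inr (.inl c)
    | .node c s w h => .inr (.inr (c, s, ⟨w, h⟩))
  invFun
    | .inl (.inl i) => .core i
    | .inl (.inr i) => .chain i
    | .inr (.inl c) => .cell c
    | .inr (.inr (c, s, w)) => .node c s w.1 w.2
  left_inv x := by cases x <;> rfl
  right_inv x := by rcases x with (i | i) | (c | ⟨c, s, w⟩) <;> rfl

private theorem vx_card (d K L : ℕ) : Finite (Vx d K L) ∧
    Nat.card (Vx d K L) = 2 * d + K * K * (1 + 2 * sz d L) := by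
  obtain ⟨h1, h2⟩ := Sd_card d L
  have : Finite (Sd d L) := h1
  refine ⟨Finite.of_equiv _ (vxEquiv d K L).symm, ?_⟩
  rw [Nat.card_congr (vxEquiv d K L), Nat.card_sum, Nat.card_sum, Nat.card_sum]
  simp only [Nat.card_prod]
  rw [Nat.card_coe_set_eq, h2]
  simp only [Nat.card_eq_fintype_card, Fintype.card_fin, Fintype.card_bool]
  ring

section graph

variable {d K L : ℕ}

/-- the coordinates -/
private def cc (c : Fin K × Fin K) (s : Bool) : ℕ := if s = true then c.1.1 else c.2.1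

/-- values in a number tree -/
private def vn (c : Fin K × Fin K) (s : Bool) : List ℕ → ℕ
  | [] => cc c s
  | j :: _ => j

private def val : Vx d K L → ℕ
  | .core i => i.1
  | .chain _ => 0
  | .cell _ => 0
  | .node c s w _ => vn c s w

private def ro : Vx d K L → ℕ
  | .core _ => 0
  | .chain _ => L + 2
  | .cell _ => L + 1
  | .node _ _ w _ => L - w.length

private def bt : Vx d K L → Bool
  | .node c s (j :: w) _ => (vn c s w).testBit j
  | _ => false

private def mk : Vx d K L → Bool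
  | .node _ s _ _ => s
  | _ => false

private def E1 : Vx d K L → Vx d K L → Prop
  | .chain i, .core j => j.1 < i.1
  | .core j, .node c s w _ => w.length + 1 = L ∧ (vn c s w).testBit j.1 = true
  | .node c s w _, .node c' s' w' _ => c = c' ∧ s = s' ∧ ∃ j, w = j :: w'
  | .node c _ w _, .cell c' => c = c' ∧ w = []
  | _, _ => False

private def Gr (d K L : ℕ) : SimpleGraph (Vx d K L) where
  Adj x y := E1 x y ∨ E1 y x
  symm := ⟨fun _ _ h => h.symm⟩
  loopless := ⟨by
    intro x h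
    have h1 : E1 x x := h.elim id id
    cases x with
    | core i => exact h1
    | chain i => exact h1
    | cell c => exact h1
    | node c s w hw =>
      obtain ⟨-, -, j, hj⟩ := h1
      have h2 := congrArg List.length hj
      rw [List.length_cons] at h2
      omega⟩

private theorem ro_zero {x : Vx d K L} : ro x = 0 ↔ ∃ i, x = .core i := by
  cases x with
  | core i => simp [ro]
  | chain i => simp [ro]
  | cell c => simp [ro]
  | node c s w hw =>
    have := hw.1
    simp only [ro, reduceCtorEq, exists_false, iff_false]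
    omega

private theorem ro_chain {x : Vx d K L} : ro x = L + 2 ↔ ∃ i, x = .chain i := by
  cases x with
  | core i => simp [ro]
  | chain i => simp [ro]
  | cell c => simp [ro]
  | node c s w hw =>
    simp only [ro, reduceCtorEq, exists_false, iff_false]
    omega

private theorem ro_cell {x : Vx d K L} : ro x = L + 1 ↔ ∃ c, x = .cell c := by
  cases x with
  | core i => simp [ro]
  | chain i => simp [ro]
  | cell c => simp [ro]
  | node c s w hw =>
    simp only [ro, reduceCtorEq, exists_false, iff_false]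
    omega

/-- the numbers -/
private theorem ro_node {x : Vx d K L} {l : ℕ} (hl : l < L) (h : ro x = l + 1) :
    ∃ c s w hw, x = .node c s w hw ∧ w.length + (l + 1) = L := by
  cases x with
  | core i => simp [ro] at h
  | chain i => simp [ro] at h; omega
  | cell c => simp [ro] at h; omega
  | node c s w hw =>
    have h1 := hw.1
    simp only [ro] at h
    exact ⟨c, s, w, hw, rfl, by omega⟩

private theorem adj_chain_core {i j : Fin d} :
    (Gr d K L).Adj (.chain i) (.core j) ↔ j.1 < i.1 := by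
  show (j.1 < i.1 ∨ False) ↔ j.1 < i.1
  exact or_iff_left id

private theorem clt_iff {u v : Vx d K L} :
    CLt (Gr d K L).Adj (fun v => ro v = 0) (fun v => ro v = L + 2) u v ↔
      ∃ i j : Fin d, u = .core i ∧ v = .core j ∧ i.1 < j.1 := by
  constructor
  · rintro ⟨hu, hv, c, hc, h1, h2⟩
    obtain ⟨i, rfl⟩ := ro_zero.1 hu
    obtain ⟨j, rfl⟩ := ro_zero.1 hv
    obtain ⟨k, rfl⟩ := ro_chain.1 hc
    rw [adj_chain_core] at h1 h2
    exact ⟨i, j, rfl, rfl, by omega⟩
  · rintro ⟨i, j, rfl, rfl, h⟩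
    exact ⟨rfl, rfl, .chain j, rfl, adj_chain_core.2 h, fun h' => absurd (adj_chain_core.1 h')
      (lt_irrefl _)⟩

private theorem chn_gr : Chn (Gr d K L).Adj (fun v => ro v = 0) (fun v => ro v = L + 2) where
  asym := by
    intro u v h h'
    obtain ⟨i, j, rfl, rfl, h1⟩ := clt_iff.1 h
    obtain ⟨i', j', h2, h3, h4⟩ := clt_iff.1 h'
    rw [Vx.core.injEq] at h2 h3
    subst h2 h3
    omega
  tot := by
    intro u v hu hv hne
    obtain ⟨i, rfl⟩ := ro_zero.1 hu
    obtain ⟨j, rfl⟩ := ro_zero.1 hv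
    have h1 : i.1 ≠ j.1 := fun h => hne (by rw [Fin.ext h])
    rcases Nat.lt_or_gt_of_ne h1 with h | h
    · exact Or.inl (clt_iff.2 ⟨i, j, rfl, rfl, h⟩)
    · exact Or.inr (clt_iff.2 ⟨j, i, rfl, rfl, h⟩)
  ex := by
    intro v hv
    obtain ⟨j, rfl⟩ := ro_zero.1 hv
    refine ⟨.chain j, rfl, fun u hu => ?_⟩
    obtain ⟨i, rfl⟩ := ro_zero.1 hu
    rw [adj_chain_core, clt_iff]
    constructor
    · exact fun h => ⟨i, j, rfl, rfl, h⟩
    · rintro ⟨i', j', h1, h2, h3⟩
      rw [Vx.core.injEq] at h1 h2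
      rw [h1, h2]
      exact h3
  un := by
    intro v hv c c' hc hc' h h'
    obtain ⟨k, rfl⟩ := ro_chain.1 hc
    obtain ⟨k', rfl⟩ := ro_chain.1 hc'
    have h1 : ∀ i : Fin d, i.1 < k.1 ↔ i.1 < k'.1 := by
      intro i
      have h2 := (h (.core i) rfl).trans (h' (.core i) rfl).symm
      rwa [adj_chain_core, adj_chain_core] at h2
    have h3 := h1 k
    have h4 := h1 k'
    have h5 : k = k' := Fin.ext (by omega)
    rw [h5]
  all := by
    intro c hc
    obtain ⟨k, rfl⟩ := ro_chain.1 hc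
    refine ⟨.core k, rfl, fun u hu => ?_⟩
    obtain ⟨i, rfl⟩ := ro_zero.1 hu
    rw [adj_chain_core, clt_iff]
    constructor
    · exact fun h => ⟨i, k, rfl, rfl, h⟩
    · rintro ⟨i', j', h1, h2, h3⟩
      rw [Vx.core.injEq] at h1 h2
      rw [h1, h2]
      exact h3

private theorem adj_node_core {c : Fin K × Fin K} {s : Bool} {w : List ℕ} {hw : _} {j : Fin d} :
    (Gr d K L).Adj (.node c s w hw) (.core j) ↔
      w.length + 1 = L ∧ (vn c s w).testBit j.1 = true := by
  show (False ∨ (w.length + 1 = L ∧ (vn c s w).testBit j.1 = true)) ↔ _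
  exact or_iff_right id

private theorem adj_node_node {c c' : Fin K × Fin K} {s s' : Bool} {w w' : List ℕ} {hw : _}
    {hw' : _} : (Gr d K L).Adj (.node c s w hw) (.node c' s' w' hw') ↔
      c = c' ∧ s = s' ∧ ((∃ j, w = j :: w') ∨ ∃ j, w' = j :: w) := by
  show ((c = c' ∧ s = s' ∧ ∃ j, w = j :: w') ∨ (c' = c ∧ s' = s ∧ ∃ j, w' = j :: w)) ↔ _
  constructor
  · rintro (⟨rfl, rfl, h⟩ | ⟨rfl, rfl, h⟩)
    · exact ⟨rfl, rfl, Or.inl h⟩
    · exact ⟨rfl, rfl, Or.inr h⟩
  · rintro ⟨rfl, rfl, h | h⟩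
    · exact Or.inl ⟨rfl, rfl, h⟩
    · exact Or.inr ⟨rfl, rfl, h⟩

private theorem adj_cell_iff {c : Fin K × Fin K} {x : Vx d K L} :
    (Gr d K L).Adj (.cell c) x ↔ ∃ s hw, x = .node c s [] hw := by
  cases x with
  | core i =>
    show (False ∨ False) ↔ _
    simp
  | chain i =>
    show (False ∨ False) ↔ _
    simp
  | cell c' =>
    show (False ∨ False) ↔ _
    simp
  | node c' s w hw =>
    show (False ∨ (c' = c ∧ w = [])) ↔ _
    constructor
    · rintro (h | ⟨rfl, rfl⟩)
      · exact h.elim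
      · exact ⟨s, hw, rfl⟩
    · rintro ⟨s', hw', h⟩
      rw [Vx.node.injEq] at h
      exact Or.inr ⟨h.1, h.2.2⟩

/-- the positions -/
private theorem pos_succ {c : Fin K × Fin K} {s : Bool} {w : List ℕ} {hw : _} {l : ℕ}
    (hl : w.length + (l + 2) = L) {p : Vx d K L} :
    Pos (Gr d K L).Adj ro (l + 1) (.node c s w hw) p ↔ ∃ j hj, p = .node c s (j :: w) hj := by
  show ((Gr d K L).Adj (.node c s w hw) p ∧ ro p = l + 1) ↔ _
  constructor
  · rintro ⟨h1, h2⟩
    obtain ⟨c', s', w', hw', rfl, h3⟩ := ro_node (by omega) h2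
    obtain ⟨rfl, rfl, ⟨j, rfl⟩ | ⟨j, rfl⟩⟩ := adj_node_node.1 h1
    · rw [List.length_cons] at hl
      omega
    · exact ⟨j, hw', rfl⟩
  · rintro ⟨j, hj, rfl⟩
    refine ⟨adj_node_node.2 ⟨rfl, rfl, Or.inr ⟨j, rfl⟩⟩, ?_⟩
    show L - (j :: w).length = l + 1
    rw [List.length_cons]
    omega

private theorem vn_lt {c : Fin K × Fin K} {s : Bool} {w : List ℕ} (hK : K ≤ Tw L d)
    (hw : w.length < L ∧ Okw d L w) : vn c s w < Tw (L - w.length) d := by
  cases w with
  | nil =>
    show cc c s < Tw L d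
    unfold cc
    split_ifs
    · exact c.1.2.trans_le hK
    · exact c.2.2.trans_le hK
  | cons j w =>
    have h1 := hw.2.1
    rw [List.length_cons, show L - (w.length + 1) = L - 1 - w.length by omega]
    exact h1

private theorem ab_gr (hK : K ≤ Tw L d) : AB L d (Gr d K L).Adj ro bt val where
  clt := by
    intro x y hx hy
    obtain ⟨i, rfl⟩ := ro_zero.1 hx
    obtain ⟨j, rfl⟩ := ro_zero.1 hy
    rw [clt_iff]
    constructor
    · rintro ⟨i', j', h1, h2, h3⟩
      rw [Vx.core.injEq] at h1 h2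
      rw [h1, h2]
      exact h3
    · exact fun h => ⟨i, j, rfl, rfl, h⟩
  cinj := by
    intro x y hx hy h
    obtain ⟨i, rfl⟩ := ro_zero.1 hx
    obtain ⟨j, rfl⟩ := ro_zero.1 hy
    have h1 : i = j := Fin.ext h
    rw [h1]
  cex := fun j hj => ⟨.core ⟨j, hj⟩, rfl, rfl⟩
  clt' := by
    intro x hx
    obtain ⟨i, rfl⟩ := ro_zero.1 hx
    exact i.2
  plt := by
    intro l hl x hx p hp
    obtain ⟨c, s, w, hw, rfl, h1⟩ := ro_node hl hx
    cases l with
    | zero =>
      obtain ⟨i, rfl⟩ := ro_zero.1 hp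
      exact i.2
    | succ l =>
      obtain ⟨j, hj, rfl⟩ := (pos_succ (by omega)).1 hp
      have h2 := hj.2.1
      rw [show L - 1 - w.length = l + 1 by omega] at h2
      exact h2
  pex := by
    intro l hl x hx j hj
    obtain ⟨c, s, w, hw, rfl, h1⟩ := ro_node hl hx
    cases l with
    | zero => exact ⟨.core ⟨j, hj⟩, rfl, rfl⟩
    | succ l =>
      have h2 : (j :: w).length < L ∧ Okw d L (j :: w) := by
        refine ⟨by rw [List.length_cons]; omega, ?_, hw.2⟩
        rw [show L - 1 - w.length = l + 1 by omega]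
        exact hj
      exact ⟨.node c s (j :: w) h2, (pos_succ (by omega)).2 ⟨j, h2, rfl⟩, rfl⟩
  pon := by
    intro l hl x hx p hp
    obtain ⟨c, s, w, hw, rfl, h1⟩ := ro_node hl hx
    cases l with
    | zero =>
      obtain ⟨i, rfl⟩ := ro_zero.1 hp
      show (Gr d K L).Adj (.node c s w hw) (.core i) ↔ _
      rw [adj_node_core]
      exact ⟨fun h => h.2, fun h => ⟨h1, h⟩⟩
    | succ l =>
      obtain ⟨j, hj, rfl⟩ := (pos_succ (by omega)).1 hp
      exact Iff.rfl
  lt := by
    intro l hl x hx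
    obtain ⟨c, s, w, hw, rfl, h1⟩ := ro_node hl hx
    have h2 := vn_lt (c := c) (s := s) hK hw
    rw [show L - w.length = l + 1 by omega] at h2
    exact h2

/-- the tiles -/
private def ti {Q : Type} (t : ℕ → ℕ → Q) : Vx d K L → Q
  | .cell c => t c.1.1 c.2.1
  | _ => t 0 0

private theorem dg_iff {c : Fin K × Fin K} {s : Bool} {x : Vx d K L} :
    Dg (Gr d K L).Adj ro mk L s (.cell c) x ↔ ∃ hw, x = .node c s [] hw := by
  constructor
  · rintro ⟨h1, h2, h3⟩
    obtain ⟨s', hw, rfl⟩ := adj_cell_iff.1 h1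
    have h4 : s' = s := h3
    subst h4
    exact ⟨hw, rfl⟩
  · rintro ⟨hw, rfl⟩
    exact ⟨adj_cell_iff.2 ⟨s, hw, rfl⟩, rfl, rfl⟩

private theorem tedge {u v : Vx d K L} (h : E1 u v) : TEdge L (ro u) (ro v) := by
  cases u with
  | core i =>
    cases v with
    | node c s w hw =>
      right; right; left
      have h1 := h.1
      show L - w.length = 0 + 1 ∧ 0 ≤ L
      omega
    | core j => exact h.elim
    | chain j => exact h.elim
    | cell c => exact h.elim
  | chain i =>
    cases v with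
    | core j => exact Or.inr (Or.inl ⟨rfl, rfl⟩)
    | node c s w hw => exact h.elim
    | chain j => exact h.elim
    | cell c => exact h.elim
  | cell c =>
    cases v <;> exact h.elim
  | node c s w hw =>
    cases v with
    | core j => exact h.elim
    | chain j => exact h.elim
    | cell c' =>
      obtain ⟨-, rfl⟩ := h
      right; right; left
      exact ⟨rfl, le_rfl⟩
    | node c' s' w' hw' =>
      obtain ⟨-, -, j, rfl⟩ := h
      right; right; left
      have h1 := hw.1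
      show L - w'.length = L - (j :: w').length + 1 ∧ L - (j :: w').length ≤ L
      rw [List.length_cons] at h1 ⊢
      omega

private theorem tedge_symm {i j : ℕ} (h : TEdge L i j) : TEdge L j i := by
  unfold TEdge at h ⊢
  tauto

private theorem par_gr (v : Vx d K L) (h1 : 1 ≤ ro v) (h2 : ro v ≤ L) :
    ∃! u, (Gr d K L).Adj v u ∧ ro u = ro v + 1 := by
  obtain ⟨c, s, w, hw, rfl, h3⟩ := ro_node (x := v) (l := ro v - 1) (by omega) (by omega)
  cases w with
  | nil =>
    refine ⟨.cell c, ⟨(adj_cell_iff.2 ⟨s, hw, rfl⟩).symm, rfl⟩, ?_⟩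
    rintro u ⟨h4, h5⟩
    obtain ⟨c', rfl⟩ := ro_cell.1 (show ro u = L + 1 from h5)
    obtain ⟨s', hw', h6⟩ := adj_cell_iff.1 h4.symm
    rw [Vx.node.injEq] at h6
    rw [h6.1]
  | cons j w =>
    have h4 := hw.1
    rw [List.length_cons] at h4
    have hw' : w.length < L ∧ Okw d L w := ⟨by omega, hw.2.2⟩
    have h5 : ro (Vx.node c s (j :: w) hw : Vx d K L) + 1 = L - w.length := by
      show L - (j :: w).length + 1 = L - w.length
      rw [List.length_cons]
      omega
    refine ⟨.node c s w hw', ⟨adj_node_node.2 ⟨rfl, rfl, Or.inl ⟨j, rfl⟩⟩, h5.symm⟩, ?_⟩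
    rintro u ⟨h6, h7⟩
    rw [h5] at h7
    obtain ⟨c', s', w', hw'', rfl, h8⟩ := ro_node (x := u) (l := L - w.length - 1) (by omega)
      (by omega)
    obtain ⟨rfl, rfl, ⟨j', h9⟩ | ⟨j', h9⟩⟩ := adj_node_node.1 h6
    · rw [List.cons.injEq] at h9
      obtain ⟨-, rfl⟩ := h9
      rfl
    · have h10 := congrArg List.length h9
      rw [List.length_cons, List.length_cons] at h10
      omega

private theorem cc_ex (s : Bool) {n : ℕ} (hn : n < K) : ∃ c : Fin K × Fin K, cc c s = n :=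
  ⟨(⟨n, hn⟩, ⟨n, hn⟩), by unfold cc; split_ifs <;> rfl⟩

private theorem cc_lt (c : Fin K × Fin K) (s : Bool) : cc c s < K := by
  unfold cc
  split_ifs
  · exact c.1.2
  · exact c.2.2

private theorem rule (hBIT : T_BIT) {Q : Type} {U : Bool → Bool → Bool → Bool → Q → Prop}
    {Hh Vv : Q → Q → Prop} {t : ℕ → ℕ → Q} (hL : 1 ≤ L) (hd : 0 < d) (hK1 : Tw L (d - 1) < K)
    (hK : K ≤ Tw L d) (hG : GridF U Hh Vv K K t) :
    TRule L U Hh Vv (Gr d K L).Adj ro bt mk (ti t) := by
  have hab : AB L d (Gr d K L).Adj ro bt val := ab_gr hK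
  have hroot : ([] : List ℕ).length < L ∧ Okw d L [] := ⟨hL, trivial⟩
  have hT : ∀ l, 0 < Tw (l + 1) d := fun l => Nat.pow_pos (by norm_num)
  have hSm : ∀ (s : Bool) (c c' : Fin K × Fin K),
      (∀ x y, Dg (Gr d K L).Adj ro mk L s (.cell c) x → Dg (Gr d K L).Adj ro mk L s (.cell c') y →
        Same (Gr d K L).Adj ro bt L x y) ↔ cc c s = cc c' s := by
    intro s c c'
    have hsem := (sem_all hBIT hd hab L le_rfl).sm (.node c s [] hroot) (.node c' s [] hroot)
      rfl rfl
    constructor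
    · intro h
      exact hsem.1 (h _ _ (dg_iff.2 ⟨hroot, rfl⟩) (dg_iff.2 ⟨hroot, rfl⟩))
    · intro h x y hx hy
      obtain ⟨hw, rfl⟩ := dg_iff.1 hx
      obtain ⟨hw', rfl⟩ := dg_iff.1 hy
      exact hsem.2 h
  have hSc : ∀ (s : Bool) (c c' : Fin K × Fin K),
      (∀ x y, Dg (Gr d K L).Adj ro mk L s (.cell c) x → Dg (Gr d K L).Adj ro mk L s (.cell c') y →
        Suc (Gr d K L).Adj ro bt (fun v => ro v = L + 2) (L - 1) x y) ↔ cc c' s = cc c s + 1 := by
    intro s c c'
    have hsem := suc_val hBIT hd hab (l := L - 1) (by omega) (x := .node c s [] hroot)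
      (y := .node c' s [] hroot) (show L = L - 1 + 1 by omega) (show L = L - 1 + 1 by omega)
    constructor
    · intro h
      exact hsem.1 (h _ _ (dg_iff.2 ⟨hroot, rfl⟩) (dg_iff.2 ⟨hroot, rfl⟩))
    · intro h x y hx hy
      obtain ⟨hw, rfl⟩ := dg_iff.1 hx
      obtain ⟨hw', rfl⟩ := dg_iff.1 hy
      exact hsem.2 h
  have hZr : ∀ (s : Bool) (c : Fin K × Fin K),
      (∀ x, Dg (Gr d K L).Adj ro mk L s (.cell c) x →
        Zer (Gr d K L).Adj ro bt (L - 1) x) ↔ cc c s = 0 := by
    intro s c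
    have hsem := zer_val hBIT hab (l := L - 1) (by omega) (x := .node c s [] hroot)
      (show L = L - 1 + 1 by omega)
    constructor
    · intro h
      exact hsem.1 (h _ (dg_iff.2 ⟨hroot, rfl⟩))
    · intro h x hx
      obtain ⟨hw, rfl⟩ := dg_iff.1 hx
      exact hsem.2 h
  have hEx : ∀ (s : Bool) (c : Fin K × Fin K), (¬ ∃ w : Vx d K L, ro w = L + 1 ∧
      ∀ x y, Dg (Gr d K L).Adj ro mk L s (.cell c) x → Dg (Gr d K L).Adj ro mk L s w y →
        Suc (Gr d K L).Adj ro bt (fun v => ro v = L + 2) (L - 1) x y) ↔ cc c s + 1 = K := by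
    intro s c
    have h1 := cc_lt c s
    constructor
    · intro h
      by_contra hn
      obtain ⟨c', hc'⟩ := cc_ex (K := K) s (n := cc c s + 1) (by omega)
      exact h ⟨.cell c', rfl, (hSc s c c').2 hc'⟩
    · rintro h ⟨w, hw, hw'⟩
      obtain ⟨c', rfl⟩ := ro_cell.1 hw
      have h2 := (hSc s c c').1 hw'
      have h3 := cc_lt c' s
      omega
  refine
    { rng := ?_
      edge := ?_
      chn := chn_gr
      par := fun v h1 h2 => par_gr v h1 h2
      inj := ?_
      zer := ?_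
      suc := ?_
      cel := ?_
      hi := ?_
      grid := ?_ }
  · intro v
    cases v with
    | core i => exact Nat.zero_le _
    | chain i => exact le_rfl
    | cell c => exact Nat.le_succ _
    | node c s w hw =>
      show L - w.length ≤ L + 2
      omega
  · intro u v h
    rcases h with h | h
    · exact tedge h
    · exact tedge_symm (tedge h)
  · intro l x y y' hl1 hl hx hy hy' hs
    obtain ⟨c, s, w, hw, rfl, h1⟩ := ro_node hl hx
    obtain ⟨l, rfl⟩ : ∃ k, l = k + 1 := ⟨l - 1, by omega⟩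
    obtain ⟨j, hj, rfl⟩ := (pos_succ (by omega)).1 hy
    obtain ⟨j', hj', rfl⟩ := (pos_succ (by omega)).1 hy'
    have h2 := ((sem_all hBIT hd hab (l + 1) hl.le).sm _ _ hy.2 hy'.2).1 hs
    have h3 : j = j' := h2
    subst h3
    rfl
  · intro l x hl hx
    obtain ⟨y, hy, hy0⟩ := hab.pex (l + 1) hl x hx 0 (hT l)
    exact ⟨y, hy, (zer_val hBIT hab (by omega) (pos_ro hy)).2 hy0⟩
  · intro l x y hl hx hy
    have h1 := hab.plt (l + 1) hl x hx y hy
    by_cases h2 : val y + 1 = Tw (l + 1) d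
    · exact Or.inl ((max_val hBIT hab (by omega) (pos_ro hy)).2 h2)
    · obtain ⟨y', hy', h3⟩ := hab.pex (l + 1) hl x hx (val y + 1) (by omega)
      exact Or.inr ⟨y', hy', (suc_val hBIT hd hab (by omega) (pos_ro hy) (pos_ro hy')).2 h3⟩
  · intro z s hz
    obtain ⟨c, rfl⟩ := ro_cell.1 hz
    refine ⟨.node c s [] hroot, dg_iff.2 ⟨hroot, rfl⟩, fun y hy => ?_⟩
    obtain ⟨hw, rfl⟩ := dg_iff.1 hy
    rfl
  · obtain ⟨c, hc⟩ := cc_ex (K := K) true (n := K - 1) (by omega)
    refine ⟨.cell c, .node c true [] hroot, rfl, dg_iff.2 ⟨hroot, rfl⟩, ?_⟩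
    refine ((sem_all hBIT hd hab L le_rfl).hi (.node c true [] hroot) rfl).2 ?_
    show Tw L (d - 1) ≤ cc c true
    omega
  · refine
      { gi := ?_
        gp := ?_
        gd := ?_
        ne := ?_
        un := ?_
        hh := ?_
        vv := ?_ }
    · intro z z' hz hz' h1 h2
      obtain ⟨c, rfl⟩ := ro_cell.1 hz
      obtain ⟨c', rfl⟩ := ro_cell.1 hz'
      have h3 : c.1.1 = c'.1.1 := (hSm true c c').1 h1
      have h4 : c.2.1 = c'.2.1 := (hSm false c c').1 h2
      have h5 : c = c' := Prod.ext (Fin.ext h3) (Fin.ext h4)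
      rw [h5]
    · intro z z' hz hz'
      obtain ⟨c, rfl⟩ := ro_cell.1 hz
      obtain ⟨c', rfl⟩ := ro_cell.1 hz'
      exact ⟨.cell (c.1, c'.2), rfl, (hSm true c (c.1, c'.2)).2 rfl,
        (hSm false c' (c.1, c'.2)).2 rfl⟩
    · intro s z hz
      obtain ⟨c, rfl⟩ := ro_cell.1 hz
      by_cases h1 : cc c s = 0
      · exact Or.inl ((hZr s c).2 h1)
      · obtain ⟨c', hc'⟩ := cc_ex (K := K) s (n := cc c s - 1) (by have := cc_lt c s; omega)
        exact Or.inr ⟨.cell c', rfl, (hSc s c' c).2 (by omega)⟩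
    · obtain ⟨c, -⟩ := cc_ex (K := K) true (n := 0) (by omega)
      exact ⟨.cell c, rfl⟩
    · intro z hz a b e f ha hb he hf
      obtain ⟨c, rfl⟩ := ro_cell.1 hz
      have h1 := hG.1 c.1.1 c.1.2 c.2.1 c.2.2
      have ha' : a = decide (c.1.1 = 0) := by
        rw [Bool.eq_iff_iff, decide_eq_true_iff]
        exact ha.trans (hZr true c)
      have he' : e = decide (c.2.1 = 0) := by
        rw [Bool.eq_iff_iff, decide_eq_true_iff]
        exact he.trans (hZr false c)
      have hb' : b = decide (c.1.1 + 1 = K) := by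
        rw [Bool.eq_iff_iff, decide_eq_true_iff]
        exact hb.trans (hEx true c)
      have hf' : f = decide (c.2.1 + 1 = K) := by
        rw [Bool.eq_iff_iff, decide_eq_true_iff]
        exact hf.trans (hEx false c)
      rw [ha', hb', he', hf']
      exact h1
    · intro z z' hz hz' h1 h2
      obtain ⟨c, rfl⟩ := ro_cell.1 hz
      obtain ⟨c', rfl⟩ := ro_cell.1 hz'
      have h3 : c'.1.1 = c.1.1 + 1 := (hSc true c c').1 h1
      have h4 : c.2.1 = c'.2.1 := (hSm false c c').1 h2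
      have h5 := hG.2.1 c.1.1 c.2.1 (by have := c'.1.2; omega) c.2.2
      show Hh (t c.1.1 c.2.1) (t c'.1.1 c'.2.1)
      rw [h3, ← h4]
      exact h5
    · intro z z' hz hz' h1 h2
      obtain ⟨c, rfl⟩ := ro_cell.1 hz
      obtain ⟨c', rfl⟩ := ro_cell.1 hz'
      have h3 : c.1.1 = c'.1.1 := (hSm true c c').1 h1
      have h4 : c'.2.1 = c.2.1 + 1 := (hSc false c c').1 h2
      have h5 := hG.2.2 c.1.1 c.2.1 c.1.2 (by have := c'.2.2; omega)
      show Vv (t c.1.1 c.2.1) (t c'.1.1 c'.2.1)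
      rw [h4, ← h3]
      exact h5

private theorem core_card : {v : Vx d K L | ro v = 0}.ncard = d := by
  have h1 : {v : Vx d K L | ro v = 0} = Vx.core '' Set.univ := by
    ext v
    rw [Set.image_univ]
    exact ro_zero.trans ⟨fun ⟨i, h⟩ => ⟨i, h.symm⟩, fun ⟨i, h⟩ => ⟨i, h.symm⟩⟩
  have h2 : Function.Injective (Vx.core : Fin d → Vx d K L) := fun i j h => by
    rwa [Vx.core.injEq] at h
  rw [h1, Set.ncard_image_of_injective _ h2, Set.ncard_univ, Nat.card_fin]

end graph

theorem pf_TEX (hBIT : T_BIT) : T_TEX := by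
  intro Q L U Hh Vv d K t hL hd hK1 hK hG
  obtain ⟨h1, h2⟩ := vx_card d K L
  exact ⟨Vx d K L, h1, Gr d K L, ro, bt, mk, ti t, rule hBIT hL hd hK1 hK hG, core_card, h2⟩

end Pool.Agent.H7.WB
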